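import Pool.Agent.H18.XX.TA

/-!
# The values with and without soft choices, relative to an event
-/

set_option autoImplicit false

namespace Pool.Agent.H58.XX

open Pool.Agent.H66.IQ Pool.Agent.H66.AV Pool.Agent.H18.XX Pool.Agent.H6.NB

theorem pf_EVR (hEVS : T_EVS) : T_EVR := by
  intro V β t A hβ hA y
  obtain ⟨h0, h1, _, h3⟩ := hEVS V β t y hβ
  refine ⟨h1, ?_⟩
  cases hy : A y with
  | true => simpa [bi] using h3
  | false =>
    rw [hA y hy]
    simpa [bi] using h0

end Pool.Agent.H58.XX
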