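import Pool.Agent.H18.XX.TB

/-!
# Numbers for the exponential hierarchy
-/

set_option autoImplicit false

namespace Pool.Agent.H58.XX

open Pool.Agent.H18.XX

theorem nuz_a : ∀ L : ℕ, 100 ≤ L → 100 * L ^ 2 ≤ 2 ^ L := by
  intro L hL
  induction L, hL using Nat.le_induction with
  | base => norm_num
  | succ k hk ih =>
    have h : 100 * (k + 1) ^ 2 ≤ 2 * (100 * k ^ 2) := by nlinarith
    calc 100 * (k + 1) ^ 2 ≤ 2 * (100 * k ^ 2) := h
      _ ≤ 2 * 2 ^ k := Nat.mul_le_mul_left _ ih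
      _ = 2 ^ (k + 1) := by ring

theorem nuz_b : ∀ j : ℕ, 10 ≤ j → 8 * j + 19 ≤ 2 ^ j := by
  intro j hj
  induction j, hj using Nat.le_induction with
  | base => norm_num
  | succ k hk ih =>
    calc 8 * (k + 1) + 19 ≤ 2 * (8 * k + 19) := by omega
      _ ≤ 2 * 2 ^ k := Nat.mul_le_mul_left _ ih
      _ = 2 ^ (k + 1) := by ring

theorem nuz_c (a x y : ℝ) (ha : 0 < a) (ha' : a ≤ 1 / 1024) (hx : x ≤ a ^ 5)
    (hy : y ≤ a ^ 5) :
    2 * (32 / a ^ 2 * x + 2 / a * (a ^ 3 / 32 + 2 * x)) + (36 / a ^ 2 + 4 / a) * y ≤ a ^ 2 / 2 := by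
  have h2 : 0 < a ^ 2 := by positivity
  have h3 : 0 < a ^ 3 := by positivity
  have e1 : 32 / a ^ 2 * x ≤ 32 * a ^ 3 := by
    have : 32 / a ^ 2 * x ≤ 32 / a ^ 2 * a ^ 5 := mul_le_mul_of_nonneg_left hx (by positivity)
    refine this.trans (le_of_eq ?_)
    field_simp
  have e2 : 2 / a * (a ^ 3 / 32 + 2 * x) ≤ a ^ 2 / 16 + 4 * a ^ 4 := by
    have : 2 / a * (a ^ 3 / 32 + 2 * x) ≤ 2 / a * (a ^ 3 / 32 + 2 * a ^ 5) :=
      mul_le_mul_of_nonneg_left (by linarith) (by positivity)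
    refine this.trans (le_of_eq ?_)
    field_simp
    ring
  have e3 : (36 / a ^ 2 + 4 / a) * y ≤ 36 * a ^ 3 + 4 * a ^ 4 := by
    have : (36 / a ^ 2 + 4 / a) * y ≤ (36 / a ^ 2 + 4 / a) * a ^ 5 :=
      mul_le_mul_of_nonneg_left hy (by positivity)
    refine this.trans (le_of_eq ?_)
    field_simp
  have e4 : a ^ 3 ≤ a ^ 2 / 1024 := by
    have : a ^ 3 = a ^ 2 * a := by ring
    rw [this]
    nlinarith
  have e5 : a ^ 4 ≤ a ^ 2 / 1024 := by
    have : a ^ 4 = a ^ 3 * a := by ring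
    rw [this]
    nlinarith
  linarith

theorem pf_NUZ : T_NUZ := by
  refine ⟨2 ^ 100, fun n hn L j hL hj => ?_⟩
  have hn0 : n ≠ 0 := by
    have : 0 < 2 ^ 100 := by positivity
    omega
  have hL1 : 100 ≤ L := by
    rw [hL]
    exact Nat.le_log_of_pow_le (by norm_num) hn
  have hLn : 2 ^ L ≤ n := by rw [hL]; exact Nat.pow_log_le_self 2 hn0
  have hq : 100 * L ^ 2 ≤ n := (nuz_a L hL1).trans hLn
  have hL2 : 10000 ≤ L ^ 2 := by nlinarith
  have hj1 : 16 * j ≤ L ^ 2 := by omega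
  have hj2 : L ^ 2 < 16 * j + 16 := by omega
  have hj3 : 600 ≤ j := by omega
  have hb := nuz_b j (by omega)
  have hA : (2 * (4 * j + 9) + 1) * 4 ^ (4 * j + 9) * 2 ^ L ^ 2 ≤ 2 ^ (9 * j + 18 + L ^ 2) := by
    have h4 : (4 : ℕ) ^ (4 * j + 9) = 2 ^ (8 * j + 18) := by
      rw [show (4 : ℕ) = 2 ^ 2 by norm_num, ← pow_mul]
      congr 1
      ring
    rw [h4]
    calc (2 * (4 * j + 9) + 1) * 2 ^ (8 * j + 18) * 2 ^ L ^ 2 ≤
        2 ^ j * 2 ^ (8 * j + 18) * 2 ^ L ^ 2 := by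
          refine Nat.mul_le_mul_right _ (Nat.mul_le_mul_right _ ?_)
          omega
      _ = 2 ^ (9 * j + 18 + L ^ 2) := by
          rw [← pow_add, ← pow_add]
          congr 1
          ring
  refine ⟨hA.trans (Nat.pow_le_pow_right (by norm_num) (by omega)), ?_, ?_, ?_⟩
  · calc 2 ^ (3 * j + 5) * ((2 * (4 * j + 9) + 1) * 4 ^ (4 * j + 9) * 2 ^ L ^ 2) ≤
        2 ^ (3 * j + 5) * 2 ^ (9 * j + 18 + L ^ 2) := Nat.mul_le_mul_left _ hA
      _ = 2 ^ (3 * j + 5 + (9 * j + 18 + L ^ 2)) := (pow_add _ _ _).symm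
      _ ≤ 2 ^ (2 * L ^ 2) := Nat.pow_le_pow_right (by norm_num) (by omega)
  · have h1 : ((2 ^ (3 * j + 5) : ℕ) : ℝ) * (1 / 2) ^ (4 * j + 9) = (1 / 2) ^ j / 16 := by
      have h2 : (2 : ℝ) ^ (3 * j + 5) * (1 / 2) ^ (3 * j + 5) = 1 := by
        rw [← mul_pow]
        norm_num
      have h3 : ((1 : ℝ) / 2) ^ (4 * j + 9) = (1 / 2) ^ (3 * j + 5) * ((1 / 2) ^ j / 16) := by
        rw [show 4 * j + 9 = (3 * j + 5) + (j + 4) by ring, pow_add _ (3 * j + 5), pow_add _ j]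
        norm_num
        ring
      push_cast
      rw [h3, ← mul_assoc, h2, one_mul]
    rw [h1]
    have : (0 : ℝ) < (1 / 2) ^ j := by positivity
    linarith
  · set a : ℝ := (1 / 2) ^ j with ha
    have ha0 : 0 < a := by positivity
    have ha1 : a ≤ 1 / 1024 := by
      have : a ≤ (1 / 2) ^ 10 := pow_le_pow_of_le_one (by norm_num) (by norm_num) (by omega)
      refine this.trans (by norm_num)
    have hx : ((1 : ℝ) / 2) ^ (n / 3) ≤ a ^ 5 := by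
      rw [ha, ← pow_mul]
      exact pow_le_pow_of_le_one (by norm_num) (by norm_num) (by omega)
    have hy : ((1 : ℝ) / 2) ^ (L + 18) ^ 3 ≤ a ^ 5 := by
      rw [ha, ← pow_mul]
      refine pow_le_pow_of_le_one (by norm_num) (by norm_num) ?_
      have : L ^ 2 ≤ (L + 18) ^ 3 := by
        calc L ^ 2 ≤ (L + 18) ^ 2 := Nat.pow_le_pow_left (by omega) 2
          _ ≤ (L + 18) ^ 3 := Nat.pow_le_pow_right (by omega) (by norm_num)
      omega
    have hB : 1 / ((2 ^ (3 * j + 5) : ℕ) : ℝ) = a ^ 3 / 32 := by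
      rw [ha]
      push_cast
      rw [← pow_mul, show j * 3 = 3 * j by ring, pow_add, one_div_pow]
      field_simp
      norm_num
    rw [hB]
    refine (nuz_c a _ _ ha0 ha1 hx hy).trans ?_
    calc a ^ 2 / 2 = (1 / 2 : ℝ) ^ (2 * j + 1) := by rw [ha, ← pow_mul, pow_succ, mul_comm j 2]; ring
      _ ≤ (1 / 2) ^ (L ^ 2 / 8) :=
        pow_le_pow_of_le_one (by norm_num) (by norm_num) (by omega)

end Pool.Agent.H58.XX
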