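import Pool.Agent.H18.XX.TB

/-!
# The function `1` does not see a block
-/

set_option autoImplicit false

namespace Pool.Agent.H58.XX

open Finset Pool.Agent.H6.NB Pool.Agent.H70.OQ Pool.Agent.H70.EH Pool.Agent.H70.EI
open Pool.Agent.H78.XQ Pool.Agent.H66.IQ Pool.Agent.H66.AV Pool.Agent.H18.XX
open Pool.Agent.H66.IP (Local ins sp dm IsZ scl mBp m0p)

theorem one_Cl {V : Type} {S : ℕ} (hS : 1 ≤ S) (d : ℕ) : Cl V S d fun _ => true := by
  induction d with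
  | zero => exact Or.inl ⟨true, fun _ => rfl⟩
  | succ d ih =>
    exact ⟨1, fun _ _ => true, fun _ => true, hS, fun _ => ih, fun y => ⟨fun _ => ⟨0, rfl⟩, fun _ => rfl⟩⟩

theorem one_bi (p : Prop) [Decidable p] : ic p = bi (decide p) := by
  unfold ic bi
  by_cases h : p
  · simp [h]
  · simp [h]

theorem pf_ONE (hCLO : T_CLO) (hRBF : T_RBF) (hSPF : Pool.Agent.H66.IP.T_SPF)
    (hIZU : Pool.Agent.H66.IP.T_IZU) : Pool.Agent.H18.XX.T_ONE := by
  intro V E O hO g p κ P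
  obtain ⟨-, hS20, hSz, -, -, -⟩ := hSPF (lx V)
  obtain ⟨hI, -⟩ := hIZU (dm (lx V)) E O hO
  obtain ⟨-, hI2, hI3⟩ := hI P g p.1 p.2
  have h20 : 20 ≤ scl (lx V) p.1 := (hS20 p.1).1
  have hS1 : 1 ≤ 2 ^ bd (scl (lx V) p.1) := Nat.one_le_two_pow
  classical
  have key := hRBF (scl (lx V) p.1) _ _ _ _ (hSz p.1) (κ p)
    (fun c => decide (∀ i : {a // a ∈ E}, scl (lx V) i.1 ≤ scl (lx V) p.1 →
      ax V (O (Function.update P p c) g) i.1 = κ i)) (fun _ => 1) ?_ ?_ ?_ ?_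
  · simp only [one_bi]
    exact key
  · intro P' u h'
    exact hCLO _ V E _ (fun y => O (Function.update P p (Function.update P' u y, h')) g) κ
      (hI2 (P', h') u) h20
  · intro P'
    exact hCLO _ V E _ (fun y => O (Function.update P p (P', y)) g) κ
      (hI3 (P', fun _ => false)) h20
  · intro P' u h'
    exact ⟨.lf ⟨fun _ => true, fun _ => ∅, fun _ _ _ => ⟨rfl, rfl⟩⟩, Nat.zero_le _,
      one_Cl hS1 _, fun _ => by simp [Tr.ev, bi]⟩
  · intro P'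
    exact ⟨.lf ⟨fun _ => true, fun _ => ∅, fun _ _ _ => ⟨rfl, rfl⟩⟩, Nat.zero_le _,
      one_Cl hS1 _, fun _ => by simp [Tr.ev, bi]⟩

end Pool.Agent.H58.XX
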